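import Pool.Agent.Helper22.AE.D2

/-!
# SP-D2: the number of collisions with a rectangle: radial error `ρ`, angular error `ρ τ`
-/

open Real Set Filter Topology

set_option autoImplicit false

namespace Pool.Agent.Helper92.SP

open Pool.Agent.Helper22.AE

/-- the moment bound for products (helper52) -/
private lemma mom_prod92 {J : ℕ} {η : ℝ} (r r' : Fin J → ℝ) (z z' : Fin J → ℂ)
    (hz : ∀ i, ‖z i‖ = 1) (hz' : ∀ i, ‖z' i‖ = 1)
    (hM : ∀ l < 2 * J, ‖∑ i, ((r i : ℂ) * z i ^ l - (r' i : ℂ) * z' i ^ l)‖ ≤ η) (S : Finset (Fin J)) :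
    ∀ a : ℕ, a + 2 * S.card < 2 * J →
      ‖∑ m, ((r m : ℂ) * z m ^ a * ∏ j ∈ S, ((z m - z j) * (z m - z' j)) -
        (r' m : ℂ) * z' m ^ a * ∏ j ∈ S, ((z' m - z j) * (z' m - z' j)))‖ ≤ 4 ^ S.card * η := by
  induction S using Finset.induction_on with
  | empty =>
    intro a ha
    have := hM a (by simpa using ha)
    simpa using this
  | insert j S hj ih =>
    intro a ha
    rw [Finset.card_insert_of_notMem hj] at ha ⊢
    set f : ℕ → ℂ := fun a => ∑ m, ((r m : ℂ) * z m ^ a * ∏ j ∈ S, ((z m - z j) * (z m - z' j)) -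
        (r' m : ℂ) * z' m ^ a * ∏ j ∈ S, ((z' m - z j) * (z' m - z' j))) with hf
    have h0 : ‖f a‖ ≤ 4 ^ S.card * η := ih a (by omega)
    have h1 : ‖f (a + 1)‖ ≤ 4 ^ S.card * η := ih (a + 1) (by omega)
    have h2 : ‖f (a + 2)‖ ≤ 4 ^ S.card * η := ih (a + 2) (by omega)
    have e : ∑ m, ((r m : ℂ) * z m ^ a * ∏ k ∈ insert j S, ((z m - z k) * (z m - z' k)) -
        (r' m : ℂ) * z' m ^ a * ∏ k ∈ insert j S, ((z' m - z k) * (z' m - z' k))) =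
        f (a + 2) - (z j + z' j) * f (a + 1) + z j * z' j * f a := by
      simp only [hf]
      rw [Finset.mul_sum, Finset.mul_sum, ← Finset.sum_sub_distrib, ← Finset.sum_add_distrib]
      refine Finset.sum_congr rfl fun m _ => ?_
      rw [Finset.prod_insert hj, Finset.prod_insert hj, pow_succ, pow_succ, pow_succ]
      ring
    rw [e]
    have hη' : 0 ≤ 4 ^ S.card * η := (norm_nonneg _).trans h0
    have hs : ‖z j + z' j‖ ≤ 2 := by
      calc ‖z j + z' j‖ ≤ ‖z j‖ + ‖z' j‖ := norm_add_le _ _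
        _ = 2 := by rw [hz, hz']; norm_num
    calc ‖f (a + 2) - (z j + z' j) * f (a + 1) + z j * z' j * f a‖
        ≤ ‖f (a + 2) - (z j + z' j) * f (a + 1)‖ + ‖z j * z' j * f a‖ := norm_add_le _ _
      _ ≤ (‖f (a + 2)‖ + ‖(z j + z' j) * f (a + 1)‖) + ‖z j * z' j * f a‖ := by
          gcongr
          exact norm_sub_le _ _
      _ = (‖f (a + 2)‖ + ‖z j + z' j‖ * ‖f (a + 1)‖) + ‖f a‖ := by
          rw [norm_mul, norm_mul, norm_mul, hz, hz', one_mul, one_mul]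
      _ ≤ (4 ^ S.card * η + 2 * (4 ^ S.card * η)) + 4 ^ S.card * η := by
          gcongr
      _ = 4 ^ (S.card + 1) * η := by rw [pow_succ]; ring

theorem separation_ang {J : ℕ} (hJ : 1 ≤ J) {K η τ : ℝ} (hK : 0 < K) (hη : 0 ≤ η) (hτ : 0 < τ) (hτ1 : τ ≤ 1)
    (r r' : Fin J → ℝ) (z z' : Fin J → ℂ) (hz : ∀ i, ‖z i‖ = 1) (hz' : ∀ i, ‖z' i‖ = 1)
    (hr : ∀ i, K ≤ r i ∧ r i ≤ 2 * K) (hr' : ∀ i, K ≤ r' i ∧ r' i ≤ 2 * K)
    (hs : ∀ i j, i ≠ j → τ ≤ ‖z i - z j‖ ∧ τ ≤ ‖z i - z' j‖ ∧ τ ≤ ‖z' i - z j‖ ∧ τ ≤ ‖z' i - z' j‖)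
    (hM : ∀ l < 2 * J, ‖∑ i, ((r i : ℂ) * z i ^ l - (r' i : ℂ) * z' i ^ l)‖ ≤ η)
    (i : Fin J) : ‖z i - z' i‖ ≤ 2 * 4 ^ J * η / (K * τ ^ (2 * J - 2)) := by
  have hη0 : 0 ≤ η := hη
  set S : Finset (Fin J) := Finset.univ.erase i with hS
  have hcard : S.card = J - 1 := by
    rw [hS, Finset.card_erase_of_mem (Finset.mem_univ i), Finset.card_univ, Fintype.card_fin]
  set p : ℂ → ℂ := fun x => ∏ j ∈ S, ((x - z j) * (x - z' j)) with hp
  have hzero : ∀ m, m ≠ i → p (z m) = 0 ∧ p (z' m) = 0 := by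
    intro m hm
    have hmS : m ∈ S := Finset.mem_erase.2 ⟨hm, Finset.mem_univ m⟩
    exact ⟨Finset.prod_eq_zero hmS (by simp), Finset.prod_eq_zero hmS (by simp)⟩
  have hmom : ∀ a, a ≤ 1 → ‖(r i : ℂ) * z i ^ a * p (z i) - (r' i : ℂ) * z' i ^ a * p (z' i)‖ ≤
      4 ^ (J - 1) * η := by
    intro a ha
    have h := mom_prod92 r r' z z' hz hz' hM S a (by rw [hcard]; omega)
    rw [hcard] at h
    have e : ∑ m, ((r m : ℂ) * z m ^ a * ∏ j ∈ S, ((z m - z j) * (z m - z' j)) -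
        (r' m : ℂ) * z' m ^ a * ∏ j ∈ S, ((z' m - z j) * (z' m - z' j))) =
        (r i : ℂ) * z i ^ a * p (z i) - (r' i : ℂ) * z' i ^ a * p (z' i) := by
      rw [Finset.sum_eq_single i]
      · intro m _ hm
        have := hzero m hm
        have h1 : ∏ j ∈ S, ((z m - z j) * (z m - z' j)) = 0 := this.1
        have h2 : ∏ j ∈ S, ((z' m - z j) * (z' m - z' j)) = 0 := this.2
        rw [h1, h2]; simp
      · intro h0; exact absurd (Finset.mem_univ i) h0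
    rwa [e] at h
  set P : ℝ := 4 ^ (J - 1) with hP
  have hP4 : (4 : ℝ) ^ J = 4 * P := by
    rw [hP, ← pow_succ']
    congr 1
    omega
  have hPpos : 0 < P := by positivity
  have hJ1 : (1 : ℝ) ≤ J := by exact_mod_cast hJ
  set A : ℂ := (r i : ℂ) * p (z i) with hA
  set A' : ℂ := (r' i : ℂ) * p (z' i) with hA'
  have h0 : ‖A - A'‖ ≤ P * η := by
    have := hmom 0 (by norm_num)
    simpa using this
  have h1 : ‖z i * A - z' i * A'‖ ≤ P * η := by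
    have := hmom 1 le_rfl
    have e : (r i : ℂ) * z i ^ 1 * p (z i) - (r' i : ℂ) * z' i ^ 1 * p (z' i) =
        z i * A - z' i * A' := by rw [hA, hA']; ring
    rwa [e] at this
  set Q : ℝ := ‖p (z i)‖ with hQ
  set d : ℝ := ‖z i - z' i‖ with hd
  have hd0 : 0 ≤ d := norm_nonneg _
  have hAn : ‖A‖ = r i * Q := by
    rw [hA, norm_mul, Complex.norm_real, Real.norm_of_nonneg (hK.le.trans (hr i).1)]
  have h2 : K * Q * d ≤ 2 * (P * η) := by
    have e : (z i - z' i) * A = (z i * A - z' i * A') - z' i * (A - A') := by ring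
    have h3 : ‖(z i - z' i) * A‖ ≤ P * η + P * η := by
      rw [e]
      refine (norm_sub_le _ _).trans (add_le_add h1 ?_)
      rw [norm_mul, hz', one_mul]
      exact h0
    rw [norm_mul, hAn] at h3
    have hQ0 : 0 ≤ Q := norm_nonneg _
    have h4 : K * Q * d ≤ d * (r i * Q) := by
      have := mul_le_mul_of_nonneg_right (hr i).1 (mul_nonneg hQ0 hd0)
      nlinarith
    linarith
  have hQlow : τ ^ (2 * J - 2) ≤ Q := by
    rw [hQ, hp]
    simp only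
    rw [norm_prod]
    have e : τ ^ (2 * J - 2) = ∏ j ∈ S, (τ * τ) := by
      rw [Finset.prod_const, hcard, ← pow_two, ← pow_mul]
      congr 1
      omega
    rw [e]
    refine Finset.prod_le_prod (fun j _ => by positivity) (fun j hj => ?_)
    have hij : i ≠ j := fun h => (Finset.mem_erase.1 hj).1 h.symm
    rw [norm_mul]
    exact mul_le_mul (hs i j hij).1 (hs i j hij).2.1 hτ.le (norm_nonneg _)
  have hτp : 0 < τ ^ (2 * J - 2) := by positivity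
  have hQpos : 0 < Q := lt_of_lt_of_le hτp hQlow
  have hτs : τ ^ (2 * J - 1) = τ ^ (2 * J - 2) * τ := by
    rw [← pow_succ]
    congr 1
    omega
  have hK2 : K * τ ^ (2 * J - 2) * d ≤ 2 * (P * η) :=
    (mul_le_mul_of_nonneg_right (mul_le_mul_of_nonneg_left hQlow hK.le) hd0).trans h2
  rw [le_div_iff₀ (by positivity), hP4]
  have h5 : 0 ≤ P * η := by positivity
  nlinarith


private lemma int_len_card92 (a b : ℝ) (h : 0 ≤ b) : ((Finset.Icc ⌈a - b⌉ ⌊a + b⌋).card : ℝ) ≤ 2 * b + 1 := by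
  rw [Int.card_Icc]
  have h1 : (⌊a + b⌋ : ℝ) ≤ a + b := Int.floor_le _
  have h2 : a - b ≤ ⌈a - b⌉ := Int.le_ceil _
  rcases le_or_gt 0 (⌊a + b⌋ + 1 - ⌈a - b⌉) with h' | h'
  · have h3 : (((⌊a + b⌋ + 1 - ⌈a - b⌉).toNat : ℕ) : ℝ) = ((⌊a + b⌋ + 1 - ⌈a - b⌉ : ℤ) : ℝ) := by
      have := Int.toNat_of_nonneg h'
      exact_mod_cast this
    rw [h3]
    push_cast
    linarith
  · rw [Int.toNat_of_nonpos h'.le]
    push_cast
    linarith

private lemma cz_fst92 (k q : ℤ × ℤ) : |(k.1 : ℝ) - q.1| ≤ ‖cz k - cz q‖ := by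
  have h := Complex.abs_re_le_norm (cz k - cz q)
  simpa [cz] using h

private lemma cz_snd92 (k q : ℤ × ℤ) : |(k.2 : ℝ) - q.2| ≤ ‖cz k - cz q‖ := by
  have h := Complex.abs_im_le_norm (cz k - cz q)
  simpa [cz] using h

private lemma cz_lt_one {k q : ℤ × ℤ} (h : ‖cz k - cz q‖ < 1) : k = q := by
  have h1 := abs_lt.mp ((cz_fst92 k q).trans_lt h)
  have h2 := abs_lt.mp ((cz_snd92 k q).trans_lt h)
  have e : ∀ a b : ℤ, -1 < (a : ℝ) - b → (a : ℝ) - b < 1 → a = b := by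
    intro a b ha hb
    have h3 : -1 < a - b := by exact_mod_cast ha
    have h4 : a - b < 1 := by exact_mod_cast hb
    omega
  exact Prod.ext (e _ _ h1.1 h1.2) (e _ _ h2.1 h2.2)

private lemma cross92 (k q : ℤ × ℤ) : |(k.1 : ℝ) * q.2 - k.2 * q.1| ≤ nk k * nk q * ‖zk k - zk q‖ := by
  have e : (k.1 : ℝ) * q.2 - k.2 * q.1 = ((starRingEnd ℂ) (cz k) * cz q).im := by
    simp [cz, Complex.mul_im, Complex.conj_re, Complex.conj_im]
    ring
  have e2 : ((starRingEnd ℂ) (cz k) * cz q) = ((nk k * nk q : ℝ) : ℂ) * ((starRingEnd ℂ) (zk k) * (zk q - zk k)) +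
      ((nk k * nk q : ℝ) : ℂ) := by
    have h1 : (starRingEnd ℂ) (zk k) * zk k = 1 := by
      rw [Complex.conj_mul', zk_norm]
      norm_num
    rw [← nk_zk k, ← nk_zk q, map_mul, Complex.conj_ofReal]
    have : ((nk k : ℂ) * (starRingEnd ℂ) (zk k)) * ((nk q : ℂ) * zk q) =
        ((nk k : ℂ) * nk q) * ((starRingEnd ℂ) (zk k) * (zk q - zk k)) + (nk k : ℂ) * nk q * ((starRingEnd ℂ) (zk k) * zk k) := by
      ring
    rw [this, h1]
    push_cast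
    ring
  rw [e, e2, Complex.add_im, Complex.ofReal_im, add_zero]
  refine (Complex.abs_im_le_norm _).trans ?_
  have h0 : 0 ≤ nk k * nk q := mul_nonneg (norm_nonneg _) (norm_nonneg _)
  rw [norm_mul, norm_mul, Complex.norm_real, RCLike.norm_conj, zk_norm, one_mul, norm_sub_rev, Real.norm_of_nonneg h0]

open Classical in
/-- lattice points in a thin rectangle -/
theorem rect_card {n : ℕ} (k : ℤ × ℤ) {ρ ω : ℝ} (hρ : 0 ≤ ρ) (hω : 0 ≤ ω) (hk : (2 : ℝ) ^ n ≤ nk k) (S : Finset (ℤ × ℤ))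
    (hS : ∀ q ∈ S, ‖cz k - cz q‖ ≤ ρ ∧ ‖zk k - zk q‖ ≤ ω ∧ nk q ≤ 2 ^ (n + 1)) :
    (S.card : ℝ) ≤ (2 * ρ + 1) * (8 * 2 ^ n * ω + 1) := by
  have h2n : (0 : ℝ) < 2 ^ n := by positivity
  have hk0 : 0 < nk k := lt_of_lt_of_le h2n hk
  have hnk : nk k ^ 2 = (k.1 : ℝ) ^ 2 + (k.2 : ℝ) ^ 2 := by
    unfold nk cz
    rw [Complex.sq_norm, Complex.normSq_apply]
    ring
  rcases le_total |(k.2 : ℝ)| |(k.1 : ℝ)| with h | h
  · -- columns
    have h1 : nk k ≤ 2 * |(k.1 : ℝ)| := by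
      have h3 := sq_abs (k.1 : ℝ)
      have h4 := sq_abs (k.2 : ℝ)
      have h5 : |(k.2 : ℝ)| ^ 2 ≤ |(k.1 : ℝ)| ^ 2 := pow_le_pow_left₀ (abs_nonneg _) h 2
      have h6 : nk k ^ 2 ≤ (2 * |(k.1 : ℝ)|) ^ 2 := by nlinarith
      exact le_of_sq_le_sq h6 (by positivity)
    have hk1 : 0 < |(k.1 : ℝ)| := by linarith
    have hsub : S ⊆ (Finset.Icc ⌈(k.1 : ℝ) - ρ⌉ ⌊(k.1 : ℝ) + ρ⌋).biUnion (fun a =>
        (Finset.Icc ⌈(k.2 : ℝ) * a / k.1 - 4 * 2 ^ n * ω⌉ ⌊(k.2 : ℝ) * a / k.1 + 4 * 2 ^ n * ω⌋).image (fun b => (a, b))) := by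
      intro q hq
      obtain ⟨s1, s2, s3⟩ := hS q hq
      rw [Finset.mem_biUnion]
      have h3 := abs_le.mp ((cz_fst92 k q).trans s1)
      refine ⟨q.1, Finset.mem_Icc.2 ⟨Int.ceil_le.mpr (by linarith [h3.2]), Int.le_floor.mpr (by linarith [h3.1])⟩, ?_⟩
      rw [Finset.mem_image]
      have h4 := cross92 k q
      have h5 : |(q.2 : ℝ) - (k.2 : ℝ) * q.1 / k.1| ≤ 4 * 2 ^ n * ω := by
        have hk1' : (k.1 : ℝ) ≠ 0 := abs_pos.1 hk1
        have e : (q.2 : ℝ) - (k.2 : ℝ) * q.1 / k.1 = ((k.1 : ℝ) * q.2 - k.2 * q.1) / k.1 := by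
          field_simp
        rw [e, abs_div, div_le_iff₀ hk1]
        have h6 : nk k * nk q * ‖zk k - zk q‖ ≤ (2 * |(k.1 : ℝ)|) * 2 ^ (n + 1) * ω := by
          have := norm_nonneg (zk k - zk q)
          have h7 : 0 ≤ nk q := norm_nonneg _
          gcongr
        have e2 : (2 * |(k.1 : ℝ)|) * 2 ^ (n + 1) * ω = 4 * 2 ^ n * ω * |(k.1 : ℝ)| := by
          rw [pow_succ]
          ring
        linarith
      have h6 := abs_le.1 h5
      exact ⟨q.2, Finset.mem_Icc.2 ⟨Int.ceil_le.mpr (by linarith [h6.1]), Int.le_floor.mpr (by linarith [h6.2])⟩, rfl⟩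
    have hc := (Finset.card_le_card hsub).trans Finset.card_biUnion_le
    have hc' : (S.card : ℝ) ≤ ∑ a ∈ Finset.Icc ⌈(k.1 : ℝ) - ρ⌉ ⌊(k.1 : ℝ) + ρ⌋, (8 * 2 ^ n * ω + 1) := by
      refine (show (S.card : ℝ) ≤ ((∑ a ∈ Finset.Icc ⌈(k.1 : ℝ) - ρ⌉ ⌊(k.1 : ℝ) + ρ⌋,
        ((Finset.Icc ⌈(k.2 : ℝ) * a / k.1 - 4 * 2 ^ n * ω⌉ ⌊(k.2 : ℝ) * a / k.1 + 4 * 2 ^ n * ω⌋).image
          (fun b => ((a, b) : ℤ × ℤ))).card : ℕ) : ℝ) by exact_mod_cast hc).trans ?_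
      push_cast
      refine Finset.sum_le_sum fun a _ => ?_
      refine (Nat.cast_le.2 Finset.card_image_le).trans ?_
      refine (int_len_card92 _ _ (by positivity)).trans (le_of_eq ?_)
      ring
    refine hc'.trans ?_
    rw [Finset.sum_const, nsmul_eq_mul]
    exact mul_le_mul_of_nonneg_right (int_len_card92 _ _ hρ) (by positivity)
  · have h1 : nk k ≤ 2 * |(k.2 : ℝ)| := by
      have h3 := sq_abs (k.1 : ℝ)
      have h4 := sq_abs (k.2 : ℝ)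
      have h5 : |(k.1 : ℝ)| ^ 2 ≤ |(k.2 : ℝ)| ^ 2 := pow_le_pow_left₀ (abs_nonneg _) h 2
      have h6 : nk k ^ 2 ≤ (2 * |(k.2 : ℝ)|) ^ 2 := by nlinarith
      exact le_of_sq_le_sq h6 (by positivity)
    have hk1 : 0 < |(k.2 : ℝ)| := by linarith
    have hsub : S ⊆ (Finset.Icc ⌈(k.2 : ℝ) - ρ⌉ ⌊(k.2 : ℝ) + ρ⌋).biUnion (fun b =>
        (Finset.Icc ⌈(k.1 : ℝ) * b / k.2 - 4 * 2 ^ n * ω⌉ ⌊(k.1 : ℝ) * b / k.2 + 4 * 2 ^ n * ω⌋).image (fun a => (a, b))) := by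
      intro q hq
      obtain ⟨s1, s2, s3⟩ := hS q hq
      rw [Finset.mem_biUnion]
      have h3 := abs_le.mp ((cz_snd92 k q).trans s1)
      refine ⟨q.2, Finset.mem_Icc.2 ⟨Int.ceil_le.mpr (by linarith [h3.2]), Int.le_floor.mpr (by linarith [h3.1])⟩, ?_⟩
      rw [Finset.mem_image]
      have h4 := cross92 k q
      have h5 : |(q.1 : ℝ) - (k.1 : ℝ) * q.2 / k.2| ≤ 4 * 2 ^ n * ω := by
        have hk1' : (k.2 : ℝ) ≠ 0 := abs_pos.1 hk1
        have e : (q.1 : ℝ) - (k.1 : ℝ) * q.2 / k.2 = -(((k.1 : ℝ) * q.2 - k.2 * q.1) / k.2) := by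
          field_simp
          ring
        rw [e, abs_neg, abs_div, div_le_iff₀ hk1]
        have h6 : nk k * nk q * ‖zk k - zk q‖ ≤ (2 * |(k.2 : ℝ)|) * 2 ^ (n + 1) * ω := by
          have := norm_nonneg (zk k - zk q)
          have h7 : 0 ≤ nk q := norm_nonneg _
          gcongr
        have e2 : (2 * |(k.2 : ℝ)|) * 2 ^ (n + 1) * ω = 4 * 2 ^ n * ω * |(k.2 : ℝ)| := by
          rw [pow_succ]
          ring
        linarith
      have h6 := abs_le.1 h5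
      exact ⟨q.1, Finset.mem_Icc.2 ⟨Int.ceil_le.mpr (by linarith [h6.1]), Int.le_floor.mpr (by linarith [h6.2])⟩, rfl⟩
    have hc := (Finset.card_le_card hsub).trans Finset.card_biUnion_le
    have hc' : (S.card : ℝ) ≤ ∑ b ∈ Finset.Icc ⌈(k.2 : ℝ) - ρ⌉ ⌊(k.2 : ℝ) + ρ⌋, (8 * 2 ^ n * ω + 1) := by
      refine (show (S.card : ℝ) ≤ ((∑ b ∈ Finset.Icc ⌈(k.2 : ℝ) - ρ⌉ ⌊(k.2 : ℝ) + ρ⌋,
        ((Finset.Icc ⌈(k.1 : ℝ) * b / k.2 - 4 * 2 ^ n * ω⌉ ⌊(k.1 : ℝ) * b / k.2 + 4 * 2 ^ n * ω⌋).image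
          (fun a => ((a, b) : ℤ × ℤ))).card : ℕ) : ℝ) by exact_mod_cast hc).trans ?_
      push_cast
      refine Finset.sum_le_sum fun b _ => ?_
      refine (Nat.cast_le.2 Finset.card_image_le).trans ?_
      refine (int_len_card92 _ _ (by positivity)).trans (le_of_eq ?_)
      ring
    refine hc'.trans ?_
    rw [Finset.sum_const, nsmul_eq_mul]
    exact mul_le_mul_of_nonneg_right (int_len_card92 _ _ hρ) (by positivity)

open Classical in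
theorem collisions_rect {J n : ℕ} (hJ : 2 ≤ J) {η τ : ℝ} (hη : 0 < η) (hτ : 0 < τ) (hτ1 : τ ≤ 1)
    (A : Fin J → Finset (ℤ × ℤ)) (hA : ∀ i, ∀ k ∈ A i, (2 : ℝ) ^ n ≤ nk k ∧ nk k ≤ 2 ^ (n + 1))
    (hs : ∀ i j, i ≠ j → ∀ k ∈ A i, ∀ k' ∈ A j, τ ≤ ‖zk k - zk k'‖)
    (h1 : J * 4 ^ J * (2 * η) ≤ 2 ^ n * τ ^ (2 * J - 1)) (h2 : 50 * J * 4 ^ J * η < τ ^ (2 * J - 3))
    (k : Fin J → ℤ × ℤ) (hk : k ∈ Fintype.piFinset A) :
    (((Fintype.piFinset A).filter (fun k' => ∀ l < 2 * J, ‖Mom k k' l‖ ≤ η)).card : ℝ) ≤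
      (2 * (25 * J * 4 ^ J * η / τ ^ (2 * J - 1)) + 1) * (2 * (25 * J * 4 ^ J * η / τ ^ (2 * J - 1)) * τ + 1) := by
  obtain ⟨J', rfl⟩ : ∃ J', J = J' + 1 := ⟨J - 1, by omega⟩
  have hJ' : 1 ≤ J' := by omega
  set S := (Fintype.piFinset A).filter (fun k' => ∀ l < 2 * (J' + 1), ‖Mom k k' l‖ ≤ η) with hSdef
  have hK : (0 : ℝ) < 2 ^ n := by positivity
  have h2K : (2 : ℝ) ^ (n + 1) = 2 * 2 ^ n := by ring
  have hkA : ∀ i, k i ∈ A i := Fintype.mem_piFinset.mp hk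
  have hSA : ∀ k' ∈ S, ∀ i, k' i ∈ A i := by
    intro k' hk'
    exact Fintype.mem_piFinset.mp (Finset.mem_filter.mp hk').1
  have hSM : ∀ k' ∈ S, ∀ l < 2 * (J' + 1), ‖Mom k k' l‖ ≤ η := fun k' hk' =>
    (Finset.mem_filter.mp hk').2
  have hρ0 : 0 ≤ 25 * ((J' + 1 : ℕ) : ℝ) * 4 ^ (J' + 1) * η / τ ^ (2 * (J' + 1) - 1) := by positivity
  -- (a)
  have ha : ∀ k' ∈ S, ‖cz (k 0) - cz (k' 0)‖ ≤
      25 * ((J' + 1 : ℕ) : ℝ) * 4 ^ (J' + 1) * η / τ ^ (2 * (J' + 1) - 1) := by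
    intro k' hk'
    have h := separation (J := J' + 1) (by omega) hK hη.le hτ hτ1 (fun i => nk (k i))
      (fun i => nk (k' i)) (fun i => zk (k i)) (fun i => zk (k' i)) (fun i => zk_norm _)
      (fun i => zk_norm _) (fun i => by rw [← h2K]; exact hA i _ (hkA i))
      (fun i => by rw [← h2K]; exact hA i _ (hSA k' hk' i))
      (fun i j hij => ⟨hs i j hij _ (hkA i) _ (hkA j), hs i j hij _ (hkA i) _ (hSA k' hk' j),
        hs i j hij _ (hSA k' hk' i) _ (hkA j), hs i j hij _ (hSA k' hk' i) _ (hSA k' hk' j)⟩)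
      (fun l hl => hSM k' hk' l hl) (by
        refine le_trans ?_ h1
        have : 0 ≤ ((J' + 1 : ℕ) : ℝ) * 4 ^ (J' + 1) := by positivity
        nlinarith) 0
    rw [nk_zk, nk_zk] at h
    exact h
  have hang : ∀ k' ∈ S, ‖zk (k 0) - zk (k' 0)‖ ≤ 2 * 4 ^ (J' + 1) * η / (2 ^ n * τ ^ (2 * (J' + 1) - 2)) := by
    intro k' hk'
    exact separation_ang (J := J' + 1) (by omega) hK hη.le hτ hτ1 (fun i => nk (k i))
      (fun i => nk (k' i)) (fun i => zk (k i)) (fun i => zk (k' i)) (fun i => zk_norm _)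
      (fun i => zk_norm _) (fun i => by rw [← h2K]; exact hA i _ (hkA i))
      (fun i => by rw [← h2K]; exact hA i _ (hSA k' hk' i))
      (fun i j hij => ⟨hs i j hij _ (hkA i) _ (hkA j), hs i j hij _ (hkA i) _ (hSA k' hk' j),
        hs i j hij _ (hSA k' hk' i) _ (hkA j), hs i j hij _ (hSA k' hk' i) _ (hSA k' hk' j)⟩)
      (fun l hl => hSM k' hk' l hl) 0
  -- (b)
  have hinj : Set.InjOn (fun k' : Fin (J' + 1) → ℤ × ℤ => k' 0) (S : Set (Fin (J' + 1) → ℤ × ℤ)) := by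
    intro k' hk' k'' hk'' he
    rw [Finset.mem_coe] at hk' hk''
    have he' : k' 0 = k'' 0 := he
    have hM2 : ∀ l < 2 * J', ‖∑ i : Fin J', ((nk (k' i.succ) : ℂ) * zk (k' i.succ) ^ l -
        (nk (k'' i.succ) : ℂ) * zk (k'' i.succ) ^ l)‖ ≤ 2 * η := by
      intro l hl
      have e1 : (∑ i : Fin J', ((nk (k' i.succ) : ℂ) * zk (k' i.succ) ^ l -
          (nk (k'' i.succ) : ℂ) * zk (k'' i.succ) ^ l)) = Mom k k'' l - Mom k k' l := by
        unfold Mom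
        rw [← Finset.sum_sub_distrib, Fin.sum_univ_succ, he']
        have e2 : ((nk (k 0) : ℂ) * zk (k 0) ^ l - (nk (k'' 0) : ℂ) * zk (k'' 0) ^ l -
            ((nk (k 0) : ℂ) * zk (k 0) ^ l - (nk (k'' 0) : ℂ) * zk (k'' 0) ^ l)) = 0 := by ring
        rw [e2, zero_add]
        refine Finset.sum_congr rfl fun i _ => ?_
        ring
      rw [e1]
      refine (norm_sub_le _ _).trans ?_
      have h3 := hSM k'' hk'' l (by omega)
      have h4 := hSM k' hk' l (by omega)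
      linarith
    have hjj : ((J' : ℕ) : ℝ) * 4 ^ J' ≤ ((J' + 1 : ℕ) : ℝ) * 4 ^ (J' + 1) := by
      have h5 : ((J' : ℕ) : ℝ) ≤ ((J' + 1 : ℕ) : ℝ) := by push_cast; linarith
      have h6 : (4 : ℝ) ^ J' ≤ 4 ^ (J' + 1) := pow_le_pow_right₀ (by norm_num) (by omega)
      exact mul_le_mul h5 h6 (by positivity) (by positivity)
    have hH2 : ((J' : ℕ) : ℝ) * 4 ^ J' * (2 * η) ≤ 2 ^ n * τ ^ (2 * J' - 1) := by
      calc ((J' : ℕ) : ℝ) * 4 ^ J' * (2 * η) ≤ ((J' + 1 : ℕ) : ℝ) * 4 ^ (J' + 1) * (2 * η) :=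
            mul_le_mul_of_nonneg_right hjj (by positivity)
        _ ≤ 2 ^ n * τ ^ (2 * (J' + 1) - 1) := h1
        _ ≤ 2 ^ n * τ ^ (2 * J' - 1) :=
            mul_le_mul_of_nonneg_left (pow_le_pow_of_le_one hτ.le hτ1 (by omega)) hK.le
    have hsucc : ∀ i j : Fin J', i ≠ j → i.succ ≠ j.succ := fun i j hij h =>
      hij (Fin.succ_injective _ h)
    funext i
    refine Fin.cases he' (fun i => ?_) i
    have h := separation (J := J') hJ' hK (by positivity : (0 : ℝ) ≤ 2 * η) hτ hτ1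
      (fun i => nk (k' i.succ)) (fun i => nk (k'' i.succ)) (fun i => zk (k' i.succ))
      (fun i => zk (k'' i.succ)) (fun i => zk_norm _)
      (fun i => zk_norm _) (fun i => by rw [← h2K]; exact hA _ _ (hSA k' hk' _))
      (fun i => by rw [← h2K]; exact hA _ _ (hSA k'' hk'' _))
      (fun i j hij => ⟨hs _ _ (hsucc i j hij) _ (hSA k' hk' _) _ (hSA k' hk' _),
        hs _ _ (hsucc i j hij) _ (hSA k' hk' _) _ (hSA k'' hk'' _),
        hs _ _ (hsucc i j hij) _ (hSA k'' hk'' _) _ (hSA k' hk' _),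
        hs _ _ (hsucc i j hij) _ (hSA k'' hk'' _) _ (hSA k'' hk'' _)⟩)
      hM2 hH2 i
    rw [nk_zk, nk_zk] at h
    apply cz_lt_one
    refine h.trans_lt ?_
    rw [div_lt_one (by positivity)]
    have e3 : 2 * (J' + 1) - 3 = 2 * J' - 1 := by omega
    rw [e3] at h2
    refine lt_of_le_of_lt ?_ h2
    have : 25 * ((J' : ℕ) : ℝ) * 4 ^ J' * (2 * η) = 50 * η * (((J' : ℕ) : ℝ) * 4 ^ J') := by ring
    rw [this]
    have h7 : 50 * ((J' + 1 : ℕ) : ℝ) * 4 ^ (J' + 1) * η =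
        50 * η * (((J' + 1 : ℕ) : ℝ) * 4 ^ (J' + 1)) := by ring
    rw [h7]
    exact mul_le_mul_of_nonneg_left hjj (by positivity)
  have hcard : S.card = (S.image (fun k' : Fin (J' + 1) → ℤ × ℤ => k' 0)).card :=
    (Finset.card_image_of_injOn hinj).symm
  rw [hcard]
  have hω0 : 0 ≤ 2 * 4 ^ (J' + 1) * η / (2 ^ n * τ ^ (2 * (J' + 1) - 2)) := by positivity
  refine (rect_card (n := n) (k 0) hρ0 hω0 (hA 0 _ (hkA 0)).1 _ ?_).trans ?_
  · intro q hq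
    obtain ⟨k', hk', rfl⟩ := Finset.mem_image.mp hq
    exact ⟨ha k' hk', hang k' hk', (hA 0 _ (hSA k' hk' 0)).2⟩
  · refine mul_le_mul_of_nonneg_left ?_ (by positivity)
    have hτs : τ ^ (2 * (J' + 1) - 1) = τ ^ (2 * (J' + 1) - 2) * τ := by
      rw [← pow_succ]
      congr 1
    have hJ1 : (1 : ℝ) ≤ ((J' + 1 : ℕ) : ℝ) := by exact_mod_cast (by omega : 1 ≤ J' + 1)
    have hτp : 0 < τ ^ (2 * (J' + 1) - 2) := by positivity
    have e1 : 8 * 2 ^ n * (2 * 4 ^ (J' + 1) * η / (2 ^ n * τ ^ (2 * (J' + 1) - 2))) =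
        16 * (4 ^ (J' + 1) * η / τ ^ (2 * (J' + 1) - 2)) := by
      field_simp
      ring
    have e2 : 2 * (25 * ((J' + 1 : ℕ) : ℝ) * 4 ^ (J' + 1) * η / τ ^ (2 * (J' + 1) - 1)) * τ =
        50 * ((J' + 1 : ℕ) : ℝ) * (4 ^ (J' + 1) * η / τ ^ (2 * (J' + 1) - 2)) := by
      rw [hτs]
      field_simp
      ring
    rw [e1, e2]
    have h8 : 0 ≤ 4 ^ (J' + 1) * η / τ ^ (2 * (J' + 1) - 2) := by positivity
    nlinarith

end Pool.Agent.Helper92.SP
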